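import Pool.Agent.PDP.Final
import Pool.Agent.HMW.AllK

set_option autoImplicit false

/-!
# MP_c076ed_nt: cycles of polynomials with arbitrary constant term

`K` is a number field, `g` runs through all polynomials of degree `d` over `K` which are integral
with unit leading coefficient at all primes not containing `N`, and `c` through `K`.
If `5 ≤ ν (d - 1)` and every pole of `c` outside `N` of order `d k` has `ν ∣ k` (no condition
for `ν = 1`), then the lengths of the cycles of `g(x) + c` in `K` are powers of two times bounded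
numbers, and the number of points of `K` which are periodic or end in a cycle of length at least
three is bounded uniformly in `g` and `c`, where for odd `ν (d - 1)` one only counts the points
whose cycle has a length not divisible by `2 ^ r`.
-/

open Polynomial NumberField IsDedekindDomain

namespace Pool.Agent.Results.MP_c076ed_nt.ConstantTermUniform

theorem result (K : Type) [Field K] [NumberField K] (d ν N : ℕ) (hν : 1 ≤ ν) (hN : N ≠ 0)
    (hM : 5 ≤ ν * (d - 1)) :
    ∃ B : ℕ, ∀ (g : K[X]) (c : K), g.natDegree = d →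
      (∀ v : HeightOneSpectrum (𝓞 K), (N : 𝓞 K) ∉ v.asIdeal →
        (∀ i, v.valuation K (g.coeff i) ≤ 1) ∧ v.valuation K g.leadingCoeff = 1 ∧
        ∀ k : ℤ, 0 < k → WithZero.log (v.valuation K c) = d * k → (ν : ℤ) ∣ k) →
      (∀ x ∈ Function.periodicPts (fun y => g.eval y + c), ∀ q : ℕ, Odd q →
        q ∣ Function.minimalPeriod (fun y => g.eval y + c) x → q ≤ B) ∧
      ∀ r : ℕ, {x : K | ∃ k n : ℕ, Function.minimalPeriod (fun y => g.eval y + c)
        ((fun y => g.eval y + c)^[k] x) = n ∧ 0 < n ∧ (k = 0 ∨ 3 ≤ n) ∧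
        (¬ 2 ^ r ∣ n ∨ 2 ∣ ν * (d - 1))}.encard ≤ ((B ^ 2 ^ r : ℕ) : ℕ∞) :=
  Pool.Agent.PDP.thmA Pool.Agent.HMW.all_KGU K d ν N hν hN hM

end Pool.Agent.Results.MP_c076ed_nt.ConstantTermUniform
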