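import Pool.Agent.HGR.FACT
import Pool.Agent.HGR.BEZ
import Pool.Agent.HGR.RES
import Pool.Agent.HGR.WIT
import Pool.Agent.HGR.PRE
import Pool.Agent.HGR.LOW
import Pool.Agent.HGR.LIN
import Pool.Agent.HGR.N1
import Pool.Agent.HGR.SH
import Pool.Agent.HGR.CASE1
import Pool.Agent.HGR.NUA
import Pool.Agent.HGR.NUS
import Pool.Agent.HGR.NU
import Pool.Agent.HGR.CC
import Pool.Agent.HGR.FIB
import Pool.Agent.HGR.INJ
import Pool.Agent.HGR.SUMM
import Pool.Agent.HGR.CASE2
import Pool.Agent.HGR.MIN
import Pool.Agent.HGR.FC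
import Pool.Agent.HGR.PA
import Pool.Agent.HGR.LAT
import Pool.Agent.HGR.PB
import Pool.Agent.HGR.CASE3
import Pool.Agent.HGR.FINAL

set_option autoImplicit false

/-!
# MP_c076ed_nt: almost all rational maps increase the height of every rational point

For integral binary forms `F, G` of degree `d` without common zero, `f = [F : G]` is an
endomorphism of the projective line of degree `d`. For `d` at least `4` all but `O(H ^ (2 d + 1))`
of the pairs `(F, G)` with coefficients at most `H` give a map with `h(f(P)) > h(P)` for every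
rational point `P`, hence without any rational preperiodic point; this is the exact order of the
number of pairs with a rational preperiodic point. For `d = 3` the bound is `O(H ^ (31 / 4))`.
-/

namespace Pool.Agent.Results.MP_c076ed_nt.HeightGrowth

open scoped BigOperators

/-- Integral binary forms of degree `d`, given by the coefficients `F i` of
`X ^ i * Y ^ (d - i)`. -/
abbrev Form (d : ℕ) : Type := Fin (d + 1) → ℤ

/-- The value of the form at `(x, y)`. -/
def value {R : Type} [CommRing R] {d : ℕ} (F : Form d) (x y : R) : R :=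
  ∑ i : Fin (d + 1), (F i : R) * x ^ (i : ℕ) * y ^ (d - (i : ℕ))

/-- The height of the point `(a : b)` of the projective line over the rationals, for integers
`a, b` not both zero: the maximum of the absolute values divided by the greatest common
divisor. -/
def height (a b : ℤ) : ℕ := max a.natAbs b.natAbs / Int.gcd a b

/-- The pairs of integral binary forms of degree `d` with coefficients at most `H` in absolute
value and without common zero: they define endomorphisms `[F : G]` of degree `d` of the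
projective line. -/
def Maps (d H : ℕ) : Set (Form d × Form d) :=
  {f | (∀ i, |f.1 i| ≤ (H : ℤ)) ∧ (∀ i, |f.2 i| ≤ (H : ℤ)) ∧
    ∀ x y : ℂ, value f.1 x y = 0 → value f.2 x y = 0 → x = 0 ∧ y = 0}

/-- The map increases the height of every rational point. -/
def IncreasesHeights {d : ℕ} (f : Form d × Form d) : Prop :=
  ∀ a b : ℤ, (a ≠ 0 ∨ b ≠ 0) → height a b < height (value f.1 a b) (value f.2 a b)

/-- The map on homogeneous coordinates. -/
def step {d : ℕ} (f : Form d × Form d) (v : ℚ × ℚ) : ℚ × ℚ :=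
  (value f.1 v.1 v.2, value f.2 v.1 v.2)

/-- The map has a rational preperiodic point: there is a rational point, with homogeneous
coordinates `v`, whose `n`-th and `m`-th iterated images agree in the projective line for some
`m < n`. -/
def HasPreperiodicPoint {d : ℕ} (f : Form d × Form d) : Prop :=
  ∃ v : ℚ × ℚ, v ≠ 0 ∧ ∃ m n : ℕ, m < n ∧ ∃ c : ℚ, c ≠ 0 ∧ (step f)^[n] v = c • (step f)^[m] v

/-- Let `d` be at least `3`. There are `c, K > 0` such that for every `H ≥ 1`: there are at least
`c H ^ (2 d + 2)` pairs of forms in `Maps d H`; a pair which increases the height of every rational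
point has no rational preperiodic point; at least `c H ^ (2 d + 1)` pairs have a rational
preperiodic point; and the number of pairs which do not increase the height of every rational point
is at most `K H ^ (2 d + 1)` if `d` is at least `4`, and at most `K H ^ (31 / 4)` if `d = 3`. -/
theorem result (d : ℕ) (hd : 3 ≤ d) : ∃ c K : ℝ, 0 < c ∧ ∀ H : ℕ, 1 ≤ H →
    (Maps d H).Finite ∧ c * (H : ℝ) ^ (2 * d + 2) ≤ ((Maps d H).ncard : ℝ) ∧
    (∀ f ∈ Maps d H, IncreasesHeights f → ¬ HasPreperiodicPoint f) ∧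
    c * (H : ℝ) ^ (2 * d + 1) ≤ ({f | f ∈ Maps d H ∧ HasPreperiodicPoint f}.ncard : ℝ) ∧
    (4 ≤ d → ({f | f ∈ Maps d H ∧ ¬ IncreasesHeights f}.ncard : ℝ) ≤
      K * (H : ℝ) ^ (2 * d + 1)) ∧
    (d = 3 → ({f | f ∈ Maps d H ∧ ¬ IncreasesHeights f}.ncard : ℝ) ≤
      K * (H : ℝ) ^ ((31 : ℝ) / 4)) := by
  have hfin : HGR.T_FINAL := HGR.p_FINAL
    (HGR.p_WIT HGR.p_FACT (HGR.p_RES HGR.p_BEZ)) HGR.p_PRE HGR.p_LOW
    (HGR.p_CASE1 (HGR.p_N1 HGR.p_LIN) HGR.p_SH)
    (HGR.p_CASE2 (HGR.p_NU HGR.p_NUA HGR.p_NUS) HGR.p_CC (HGR.p_INJ HGR.p_FIB) HGR.p_SUMM)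
    (HGR.p_CASE3 HGR.p_MIN HGR.p_FC HGR.p_PA (HGR.p_PB HGR.p_PA HGR.p_LAT))
  obtain ⟨c, K, hc, hK⟩ := hfin d hd
  refine ⟨c, K, hc, fun H hH => ?_⟩
  obtain ⟨h1, h2, h3, h4, h5, h6⟩ := hK H hH
  have hbad : {f | f ∈ Maps d H ∧ ¬ IncreasesHeights f} = HGR.Bad d H := by
    ext f
    constructor
    · rintro ⟨hf, hn⟩
      refine ⟨hf, ?_⟩
      unfold IncreasesHeights at hn
      push Not at hn
      exact hn
    · rintro ⟨hf, a, b, hab, hle⟩
      exact ⟨hf, fun hinc => absurd (hinc a b hab) (not_lt.2 hle)⟩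
  rw [hbad]
  refine ⟨h1, h2, fun f hf hinc hpre => ?_, h4, h5, h6⟩
  obtain ⟨-, a, b, hab, hle⟩ := h3 (show f ∈ {f | f ∈ HGR.Maps d H ∧ HGR.HasPre f} from ⟨hf, hpre⟩)
  exact absurd (hinc a b hab) (not_lt.2 hle)

end Pool.Agent.Results.MP_c076ed_nt.HeightGrowth
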