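import Pool.Agent.UPre.AllB

set_option autoImplicit false

/-!
# MP_c076ed_nt: differences of rational periodic points of `a x^d + c` are perfect powers

For `d ≥ 2`, `a ≠ 0` and any two distinct rational periodic points `x, y` of `f = a X^d + c` the number
`(x^d - y^d)/(x - y)` is, up to sign, a divisor of the fixed integer `(d num(a) den(a))^(d-2)` times
the `(d-1)`-st power of a rational number, whatever `c` is. So the ratio `x/y` is a rational
point of one of finitely many explicit curves which do not depend on `c` (plane curves of degree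
`d - 1`, of genus at least 3 for `d ≥ 5`). If these curves have only finitely many
rational points, then all but finitely many `c` have at most two rational preperiodic
points, and their number is bounded uniformly in `c`.
-/

open Function in
theorem Pool.Agent.Results.MP_c076ed_nt.PowerStructure.result
    (d : ℕ) (hd : 2 ≤ d) (a : ℚ) (ha : a ≠ 0) :
    (∀ c x y : ℚ, x ∈ periodicPts (fun t : ℚ => a * t ^ d + c) →
      y ∈ periodicPts (fun t : ℚ => a * t ^ d + c) → x ≠ y →
      ∃ m : ℕ, m ∣ (d * a.num.natAbs * a.den) ^ (d - 2) ∧ ∃ z : ℚ,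
        ∑ i ∈ Finset.range d, x ^ i * y ^ (d - 1 - i) = m * z ^ (d - 1) ∨
        ∑ i ∈ Finset.range d, x ^ i * y ^ (d - 1 - i) = -(m * z ^ (d - 1))) ∧
    ((∀ m : ℤ, m ≠ 0 →
        {r : ℚ | ∃ z : ℚ, ∑ i ∈ Finset.range d, r ^ i = m * z ^ (d - 1)}.Finite) →
      {c : ℚ | 2 < {x : ℚ | ∃ k : ℕ, (fun t : ℚ => a * t ^ d + c)^[k] x ∈
        periodicPts (fun t : ℚ => a * t ^ d + c)}.encard}.Finite ∧
      ∃ B : ℕ, ∀ c : ℚ, {x : ℚ | ∃ k : ℕ, (fun t : ℚ => a * t ^ d + c)^[k] x ∈
        periodicPts (fun t : ℚ => a * t ^ d + c)}.encard ≤ B) := by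
  obtain ⟨h1, h2, h3⟩ := Pool.Agent.UPre.mainB d hd a ha
  refine ⟨h1, fun hF => ⟨?_, h3 hF⟩⟩
  obtain ⟨E, hE, hE2⟩ := h2 hF
  refine hE.subset ?_
  intro c hc
  by_contra hcE
  have hc' : 2 < {x : ℚ | Pool.Agent.UPre.PreG a d c x}.encard := hc
  have h4 : {x : ℚ | Pool.Agent.UPre.PreG a d c x}.encard ≤ 2 := by
    rcases hE2 c hcE with h | ⟨w, -, hw⟩
    · have : {x : ℚ | Pool.Agent.UPre.PreG a d c x} = ∅ :=
        Set.eq_empty_of_forall_notMem (fun x hx => h x hx)
      rw [this, Set.encard_empty]; exact zero_le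
    · refine (Set.encard_le_encard (fun x hx => ?_ : _ ⊆ ({w, -w} : Set ℚ))).trans
        ((Set.encard_insert_le _ _).trans ?_)
      · exact hw x hx
      · rw [Set.encard_singleton]; norm_num
  exact absurd hc' (not_lt.2 h4)
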