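import Pool.Agent.PDP.Final
import Pool.Agent.HMW.AllK

set_option autoImplicit false

/-!
# MP_c076ed_nt: preperiodic points of polynomials in `x^m`

`K` is a number field, `3 ≤ m` and `6 ≤ d`; `g` runs through all polynomials of degree `d / m` over
`K` which are integral with unit leading coefficient at all primes not containing `N`, and `c`
through `K`. The number of points of `K` which are periodic or which end in a cycle of length at
least two under `g(x^m) + c` is bounded uniformly in `g` and `c`.
-/

open Polynomial NumberField IsDedekindDomain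

namespace Pool.Agent.Results.MP_c076ed_nt.PowerVariableUniform

theorem result (K : Type) [Field K] [NumberField K] (d m N : ℕ) (hd : 6 ≤ d) (hm : 3 ≤ m)
    (hN : N ≠ 0) :
    ∃ B : ℕ, ∀ (g : K[X]) (c : K), m * g.natDegree = d →
      (∀ v : HeightOneSpectrum (𝓞 K), (N : 𝓞 K) ∉ v.asIdeal →
        (∀ i, v.valuation K (g.coeff i) ≤ 1) ∧ v.valuation K g.leadingCoeff = 1) →
      {x : K | x ∈ Function.periodicPts (fun y => g.eval (y ^ m) + c) ∨
        ∃ k : ℕ, 2 ≤ Function.minimalPeriod (fun y => g.eval (y ^ m) + c)
          ((fun y => g.eval (y ^ m) + c)^[k] x)}.encard ≤ (B : ℕ∞) :=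
  Pool.Agent.PDP.thmB Pool.Agent.HMW.all_KGU K d m N hd hm hN

end Pool.Agent.Results.MP_c076ed_nt.PowerVariableUniform
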