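import Pool.Agent.PDQ.Inst
import Pool.Agent.HMW.AllK

set_option autoImplicit false

/-!
# MP_c076ed_nt: uniform boundedness for tame polynomials in `x^m`

`K` is a number field containing a primitive `m`-th root of unity, `3 ≤ m`, `5 ≤ M`, `N ≠ 0`, and
`f(x) = G(x^m)` runs through all nonconstant polynomials in `x^m` over `K` which are tame with
exponent `M` (see `Pool.Agent.PDQ.Tame`) at all primes not containing `N`; if no point of `K` has
a finite orbit then nothing is required. The constant `B` depends only on `K`, `M`, `N`, `m`: the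
number of periodic points of `f` in `K` is at most `B`, whatever the degree, and the number of
points of `K` which end in a cycle of length at least two is at most `(deg f) ^ B`.
-/

open Polynomial NumberField IsDedekindDomain

namespace Pool.Agent.Results.MP_c076ed_nt.TamePowerVariable

theorem result (K : Type) [Field K] [NumberField K] (M N m : ℕ) (hM : 5 ≤ M) (hN : N ≠ 0)
    (hm : 3 ≤ m) (ζ : K) (hζ : IsPrimitiveRoot ζ m) :
    ∃ B : ℕ, ∀ G : K[X], 1 ≤ G.natDegree →
      ((∃ x : K, (Set.range fun k : ℕ => (fun y => G.eval (y ^ m))^[k] x).Finite) →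
        ∀ v : HeightOneSpectrum (𝓞 K), (N : 𝓞 K) ∉ v.asIdeal →
          Pool.Agent.PDQ.Tame M (v.valuation K) (Polynomial.expand K m G)) →
      (Function.periodicPts (fun y => G.eval (y ^ m))).encard ≤ (B : ℕ∞) ∧
      {x : K | ∃ k : ℕ, 2 ≤ Function.minimalPeriod (fun y => G.eval (y ^ m))
        ((fun y => G.eval (y ^ m))^[k] x)}.encard ≤ (((m * G.natDegree) ^ B : ℕ) : ℕ∞) :=
  Pool.Agent.PDQ.thmB Pool.Agent.HMW.all_KGU K M N m hM hN hm ζ hζ

end Pool.Agent.Results.MP_c076ed_nt.TamePowerVariable
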