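import Pool.Agent.PDQ.Inst
import Pool.Agent.HMW.AllK

set_option autoImplicit false

/-!
# MP_c076ed_nt: uniform boundedness for polynomials which are tame outside `N`

`K` is a number field, `5 ≤ M`, `N ≠ 0`, and `f` runs through all polynomials of degree at least
two over `K` which are tame with exponent `M` (see `Pool.Agent.PDQ.Tame`) at all primes not
containing `N`; if no point of `K` has a finite orbit then nothing is required. The constant `B`
depends only on `K`, `M`, `N`, not on the degree of `f`. The cycles of `f` in `K` have as lengths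
powers of two times numbers dividing by no odd number larger than `B`, and the number of points of
`K` which are periodic or end in a cycle of length at least three is at most a fixed power of the
degree, where for odd `M` one only counts the points whose cycle has a length not divisible by
`2 ^ r`.
-/

open Polynomial NumberField IsDedekindDomain

namespace Pool.Agent.Results.MP_c076ed_nt.TameUniform

theorem result (K : Type) [Field K] [NumberField K] (M N : ℕ) (hM : 5 ≤ M) (hN : N ≠ 0) :
    ∃ B : ℕ, ∀ f : K[X], 2 ≤ f.natDegree →
      ((∃ x : K, (Set.range fun k : ℕ => (fun y => f.eval y)^[k] x).Finite) →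
        ∀ v : HeightOneSpectrum (𝓞 K), (N : 𝓞 K) ∉ v.asIdeal →
          Pool.Agent.PDQ.Tame M (v.valuation K) f) →
      (∀ x ∈ Function.periodicPts (fun y => f.eval y), ∀ q : ℕ, Odd q →
        q ∣ Function.minimalPeriod (fun y => f.eval y) x → q ≤ B) ∧
      ∀ r : ℕ, {x : K | ∃ k n : ℕ, Function.minimalPeriod (fun y => f.eval y)
        ((fun y => f.eval y)^[k] x) = n ∧ 0 < n ∧ (k = 0 ∨ 3 ≤ n) ∧
        (¬ 2 ^ r ∣ n ∨ 2 ∣ M)}.encard ≤ ((f.natDegree ^ (B * 2 ^ r) : ℕ) : ℕ∞) :=
  Pool.Agent.PDQ.thmA Pool.Agent.HMW.all_KGU K M N hM hN

end Pool.Agent.Results.MP_c076ed_nt.TameUniform
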