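import Pool.Agent.HMW.AllG
import Pool.Agent.HMW.AllK

set_option autoImplicit false

/-!
# MP_c076ed_nt: uniform boundedness of preperiodic points for unicritical polynomials

Let `K` be a number field, `a` a nonzero element of `K` and `d ≥ 5`; or `K = ℚ`, `a = 1` and
`d ≥ 3`. There is a constant `B` such that for every `c` in `K` the polynomial `a x^d + c` has at
most `B` preperiodic points in `K`.

Nothing is assumed. The proof has three parts: (1) the quotients of the numbers `x - ζ^i z`
(`x, z` preperiodic points in different phases, `ζ^d = 1`) are `(d - 1)`-th powers up to finitely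
many constants, so the pairs `(x, z)` give points on finitely many hyperelliptic curves that do not
depend on `c`; (2) the heights of these points lie between two multiples of the height of `c`;
(3) the Mordell-Weil theorem for the Jacobians of these curves, proved here with effective
divisors, local symbols and descent, and Mumford's gap principle.
-/

open Polynomial

/-- from finite subsets to the cardinality of the set -/
theorem Pool.Agent.HMW.encard_le_of_finset {α : Type} (S : Set α) (B : ℕ)
    (h : ∀ s : Finset α, (∀ x ∈ s, x ∈ S) → s.card ≤ B) : S.encard ≤ B := by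
  by_contra hcon
  rw [not_le] at hcon
  have h1 : ((B + 1 : ℕ) : ℕ∞) ≤ S.encard := by
    rw [Nat.cast_add, Nat.cast_one]
    exact Order.add_one_le_of_lt hcon
  obtain ⟨t, ht, htc⟩ := Set.exists_subset_encard_eq h1
  have hfin : t.Finite := Set.finite_of_encard_eq_coe htc
  have h2 := h hfin.toFinset (fun x hx => ht (hfin.mem_toFinset.1 hx))
  rw [hfin.encard_eq_coe_toFinset_card] at htc
  have h3 : hfin.toFinset.card = B + 1 := by exact_mod_cast htc
  omega

theorem Pool.Agent.Results.MP_c076ed_nt.UnicriticalBoundedness.result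
    (K : Type) [Field K] [NumberField K] (a : K) (d : ℕ) (ha : a ≠ 0)
    (hd : 5 ≤ d ∨ 3 ≤ d ∧ a = 1 ∧ Module.finrank ℚ K = 1) :
    ∃ B : ℕ, ∀ c : K,
      {x : K | (Set.range fun k : ℕ => (fun y : K => a * y ^ d + c)^[k] x).Finite}.encard ≤ B := by
  rcases hd with hd | ⟨hd, rfl, hK⟩
  · obtain ⟨B, hB⟩ := Pool.Agent.HMW.all_KUNI K d a hd ha
    exact ⟨B, fun c => Pool.Agent.HMW.encard_le_of_finset _ B (hB c)⟩
  · obtain ⟨B, hB⟩ := Pool.Agent.HMW.all_UNI d hd
    refine ⟨B, fun c => Pool.Agent.HMW.encard_le_of_finset _ B fun s hs => ?_⟩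
    have hbij : Function.Bijective (algebraMap ℚ K) := by
      refine ⟨(algebraMap ℚ K).injective, ?_⟩
      have h1 : (⊥ : Subalgebra ℚ K) = ⊤ := Subalgebra.bot_eq_top_of_finrank_eq_one hK
      intro y
      have hy : y ∈ (⊥ : Subalgebra ℚ K) := by rw [h1]; exact Algebra.mem_top
      exact Algebra.mem_bot.1 hy
    let e : ℚ ≃+* K := RingEquiv.ofBijective (algebraMap ℚ K) hbij
    obtain ⟨c₀, hc₀⟩ : ∃ c₀ : ℚ, e c₀ = c := e.surjective c
    have hiter : ∀ (k : ℕ) (x : ℚ), e ((Pool.Agent.HMW.fc d c₀)^[k] x) =
        (fun y : K => 1 * y ^ d + c)^[k] (e x) := by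
      intro k
      induction k with
      | zero => intro x; rfl
      | succ k ih =>
        intro x
        rw [Function.iterate_succ_apply, Function.iterate_succ_apply, ih]
        congr 1
        change e (x ^ d + c₀) = 1 * (e x) ^ d + c
        rw [map_add, map_pow, hc₀, one_mul]
    have h2 := hB c₀ (s.map e.symm.toEquiv.toEmbedding) (by
      intro x hx
      obtain ⟨y, hy, rfl⟩ := Finset.mem_map.1 hx
      have h3 := hs y hy
      have h4 : (Set.range fun k : ℕ => (Pool.Agent.HMW.fc d c₀)^[k] (e.symm y)) ⊆
          e.symm '' (Set.range fun k : ℕ => (fun y : K => 1 * y ^ d + c)^[k] y) := by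
        rintro _ ⟨k, rfl⟩
        refine ⟨_, ⟨k, rfl⟩, ?_⟩
        apply e.injective
        rw [e.apply_symm_apply]
        have h5 := hiter k (e.symm y)
        rw [e.apply_symm_apply] at h5
        exact h5.symm
      exact (h3.image _).subset h4)
    rwa [Finset.card_map] at h2
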