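import Pool.Agent.UPre.AllA

set_option autoImplicit false

/-!
# MP_c076ed_nt: uniform bounds for `a x^d + c` in infinitely many degrees

Let `q` be 3, 5 or 7, `q ∣ d - 1`, and `4 ∣ d` or `6 ∣ d`. Let `S` be a finite set with
`q ∣ v_p(a d)` for all odd primes `p` outside `S` (and `3 ∈ S` if only `6 ∣ d`). Then for every
rational `c` the polynomial `a x^d + c` has at most `2 ∏ gcd(d, p - 1)` (product over `S`)
rational periodic points, and at most four rational preperiodic points if `S` is empty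
(for instance for `x^4 + c`, `2 x^4 + c`, `x^8 + c`, `x^16 + c`).
The proof is unconditional: the pair relation for periodic points leads to the equations
`B^q = A^(2 q) + D^2` and `B^q = A^(2 q) + 3 D^2`, which are solved by descent.
-/

open Function in
theorem Pool.Agent.Results.MP_c076ed_nt.UnicriticalUniform.result
    (q d : ℕ) (hq : q = 3 ∨ q = 5 ∨ q = 7) (hd : 2 ≤ d) (hqd : q ∣ d - 1)
    (S : Finset ℕ) (hS : 4 ∣ d ∨ 6 ∣ d ∧ 3 ∈ S) (a : ℚ) (ha : a ≠ 0)
    (hval : ∀ p : ℕ, p.Prime → p ≠ 2 → p ∉ S → (q : ℤ) ∣ padicValRat p (a * d)) (c : ℚ) :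
    (periodicPts (fun x : ℚ => a * x ^ d + c)).encard ≤
      ((2 * ∏ p ∈ S, Nat.gcd d (p - 1) : ℕ) : ℕ∞) ∧
    (S = ∅ → {x : ℚ | ∃ k : ℕ, (fun x : ℚ => a * x ^ d + c)^[k] x ∈
      periodicPts (fun x : ℚ => a * x ^ d + c)}.encard ≤ 4) :=
  Pool.Agent.UPre.mainA q d hq hd hqd S hS a ha hval c
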